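import Pool.Agent.H32.LC.Ever

/-!
# A Lion and Christian game in which neither player has a winning strategy

The definitions are those of the problem: paths are maps `[0,∞) → X` of speed at most one with given
starting point, a strategy is a map from the paths of the opponent to the paths of the player
without lookahead.
-/

set_option autoImplicit false

open NNReal

namespace Pool.Agent.Results.MP_acfcdd_co.NeitherWins

/-- The paths of a player who starts at `a`: maps `f` from `[0,∞)` to `X` with `f 0 = a` and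
`d (f t) (f t') ≤ |t - t'|` for all `t, t' ≥ 0`. -/
def Paths {X : Type} [MetricSpace X] (a : X) : Type :=
  {f : ℝ≥0 → X // f 0 = a ∧ ∀ t t' : ℝ≥0, dist (f t) (f t') ≤ |(t : ℝ) - (t' : ℝ)|}

/-- A map between sets of paths has no lookahead: if two paths coincide on `[0,t₀]`, so do their
images. -/
def NoLookahead {X : Type} [MetricSpace X] {a b : X} (Φ : Paths a → Paths b) : Prop :=
  ∀ (f₁ f₂ : Paths a) (t₀ : ℝ≥0), (∀ t ≤ t₀, f₁.1 t = f₂.1 t) →
    ∀ t ≤ t₀, (Φ f₁).1 t = (Φ f₂).1 t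

/-- The Christian (start `y₀`) has a winning strategy against the Lion (start `x₀`) when the game
is played over the set of times `I`. -/
def ChristianWins {X : Type} [MetricSpace X] (x₀ y₀ : X) (I : Set ℝ≥0) : Prop :=
  ∃ Φ : Paths x₀ → Paths y₀, NoLookahead Φ ∧ ∀ (f : Paths x₀), ∀ t ∈ I, (Φ f).1 t ≠ f.1 t

/-- The Lion (start `x₀`) has a winning strategy against the Christian (start `y₀`) when the game
is played over the set of times `I`. -/
def LionWins {X : Type} [MetricSpace X] (x₀ y₀ : X) (I : Set ℝ≥0) : Prop :=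
  ∃ Ψ : Paths y₀ → Paths x₀, NoLookahead Ψ ∧ ∀ (g : Paths y₀), ∃ t ∈ I, (Ψ g).1 t = g.1 t

private theorem lip_iff {X : Type} [MetricSpace X] {f : ℝ≥0 → X} :
    LipschitzWith 1 f ↔ ∀ t t' : ℝ≥0, dist (f t) (f t') ≤ |(t : ℝ) - (t' : ℝ)| := by
  rw [lipschitzWith_iff_dist_le_mul]
  constructor
  · intro h t t'
    have h1 := h t t'
    rwa [NNReal.dist_eq, NNReal.coe_one, one_mul] at h1
  · intro h t t'
    rw [NNReal.dist_eq, NNReal.coe_one, one_mul]
    exact h t t'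

open Classical in
/-- Extension of a strategy to a map on all functions. -/
private noncomputable def ext {X : Type} [MetricSpace X] {a b : X} (Φ : Paths a → Paths b)
    (f : ℝ≥0 → X) : ℝ≥0 → X :=
  if h : f 0 = a ∧ ∀ t t' : ℝ≥0, dist (f t) (f t') ≤ |(t : ℝ) - (t' : ℝ)| then (Φ ⟨f, h⟩).1 else f

private theorem ext_eq {X : Type} [MetricSpace X] {a b : X} (Φ : Paths a → Paths b)
    {f : ℝ≥0 → X} (h : f 0 = a ∧ ∀ t t' : ℝ≥0, dist (f t) (f t') ≤ |(t : ℝ) - (t' : ℝ)|) :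
    ext Φ f = (Φ ⟨f, h⟩).1 := dif_pos h

private theorem ext_path {X : Type} [MetricSpace X] {a b : X} (Φ : Paths a → Paths b)
    (f : ℝ≥0 → X) (h1 : LipschitzWith 1 f) (h2 : f 0 = a) :
    LipschitzWith 1 (ext Φ f) ∧ ext Φ f 0 = b := by
  rw [ext_eq Φ ⟨h2, lip_iff.mp h1⟩]
  exact ⟨lip_iff.mpr (Φ ⟨f, h2, lip_iff.mp h1⟩).2.2, (Φ ⟨f, h2, lip_iff.mp h1⟩).2.1⟩

private theorem ext_noLook {X : Type} [MetricSpace X] {a b : X} {Φ : Paths a → Paths b}
    (hΦ : NoLookahead Φ) (f f' : ℝ≥0 → X) (h1 : LipschitzWith 1 f) (h2 : f 0 = a)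
    (h3 : LipschitzWith 1 f') (h4 : f' 0 = a) (t : ℝ≥0) (h : ∀ s ≤ t, f s = f' s) :
    ext Φ f t = ext Φ f' t := by
  rw [ext_eq Φ ⟨h2, lip_iff.mp h1⟩, ext_eq Φ ⟨h4, lip_iff.mp h3⟩]
  exact hΦ ⟨f, h2, lip_iff.mp h1⟩ ⟨f', h4, lip_iff.mp h3⟩ t h t le_rfl

/-- There is a metric space with two points `x₀`, `y₀` joined by a path such that, for every time
limit `T ≥ 2` and also without a time limit, neither the Lion (start `x₀`) nor the Christian
(start `y₀`) has a winning strategy. -/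
theorem result : ∃ (X : Type) (_ : MetricSpace X) (x₀ y₀ : X), Nonempty (Path x₀ y₀) ∧
    (∀ T : ℝ≥0, 2 ≤ T →
      ¬ ChristianWins x₀ y₀ (Set.Iic T) ∧ ¬ LionWins x₀ y₀ (Set.Iic T)) ∧
    ¬ ChristianWins x₀ y₀ Set.univ ∧ ¬ LionWins x₀ y₀ Set.univ := by
  have hC : ∀ I : Set ℝ≥0, Set.Iic 2 ⊆ I →
      ¬ ChristianWins Pool.Agent.H32.LC.xA Pool.Agent.H32.LC.yA I := by
    rintro I hI ⟨Φ, h1, h2⟩
    refine Pool.Agent.H32.LC.christian_loses ⟨ext Φ, ext_path Φ, ext_noLook h1, ?_⟩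
    intro f h3 h4 t ht
    rw [ext_eq Φ ⟨h4, lip_iff.mp h3⟩]
    exact h2 ⟨f, h4, lip_iff.mp h3⟩ t (hI ht)
  have hL : ∀ I : Set ℝ≥0, ¬ LionWins Pool.Agent.H32.LC.xA Pool.Agent.H32.LC.yA I := by
    rintro I ⟨Ψ, h1, h2⟩
    refine Pool.Agent.H32.LC.lion_loses_ever ⟨ext Ψ, ext_path Ψ, ext_noLook h1, ?_⟩
    intro g h3 h4
    obtain ⟨t, _, ht⟩ := h2 ⟨g, h4, lip_iff.mp h3⟩
    exact ⟨t, by rw [ext_eq Ψ ⟨h4, lip_iff.mp h3⟩]; exact ht⟩
  exact ⟨Pool.Agent.H32.LC.Arena, inferInstance, Pool.Agent.H32.LC.xA, Pool.Agent.H32.LC.yA,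
    Pool.Agent.H32.LC.exists_path,
    fun T hT => ⟨hC _ (Set.Iic_subset_Iic.mpr hT), hL _⟩, hC _ (Set.subset_univ _), hL _⟩

end Pool.Agent.Results.MP_acfcdd_co.NeitherWins
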